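import Pool.Agent.K3h88.Erde.Stm2

/-! Brick FB: the final assembly. -/

set_option autoImplicit false

namespace Pool.Agent.K3h19.Erde

open Pool.Agent.K3h88.Erde

theorem hc_loopless {V : Type} (F : Set (Sym2 V)) (h : IsHC F) (x : V) : s(x, x) ∉ F := by
  obtain ⟨M, c, ⟨hM, hc0, hinj⟩, _, rfl⟩ := h
  rintro ⟨j, hj, he⟩
  have h1 : c j = c (j + 1) := by
    rw [Sym2.eq_iff] at he
    rcases he with ⟨h1, h2⟩ | ⟨h1, h2⟩
    · rw [← h1, ← h2]
    · rw [← h1, ← h2]
  rcases Nat.lt_or_ge (j + 1) M with h2 | h2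
  · have := hinj (Set.mem_Iio.2 hj) (Set.mem_Iio.2 h2) h1
    omega
  · have h3 : j + 1 = M := by omega
    rw [h3, hc0] at h1
    have := hinj (Set.mem_Iio.2 hj) (Set.mem_Iio.2 (show 0 < M by omega)) h1
    omega

theorem fb (hH : StmHCD) (hT : StmTorus) (p1a : StmP1a) (p1b : StmP1b) (p1e : StmP1e)
    (p2a : StmP2a) (p2b : StmP2b) (p2c : StmP2c) (p3d : StmP3d) (p3e : StmP3e) (p4a : StmP4a)
    (p4c : StmP4c) : StmFB := by
  intro n k hn hn2 hk hkn hdvd
  obtain ⟨s, hs⟩ := hn
  have hs2 : n = 2 * s := by omega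
  subst hs2
  have hs1 : 1 ≤ s := by omega
  obtain ⟨j, m, hmo, hkm⟩ := Nat.exists_eq_two_pow_mul_odd (n := k) (by omega)
  rcases Nat.lt_or_ge m 3 with hm | hm
  · -- powers of two
    have hm1 : m = 1 := by
      rcases hmo with ⟨x, hx⟩; omega
    subst hm1
    rw [mul_one] at hkm
    have hj : j < 2 * s := by
      by_contra hcon
      have : 2 ^ (2 * s) ≤ 2 ^ j := Nat.pow_le_pow_right (by norm_num) (by omega)
      have hpos : 0 < 2 ^ (2 * s) := by positivity
      omega
    have hcard : Fintype.card (Fin (2 * s) → Bool) = k * 2 ^ (2 * s - j) := by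
      rw [Fintype.card_fun, Fintype.card_bool, Fintype.card_fin, hkm, ← pow_add]
      congr 1; omega
    have hc2 : 2 ≤ 2 ^ (2 * s - j) := by
      calc 2 = 2 ^ 1 := by norm_num
        _ ≤ 2 ^ (2 * s - j) := Nat.pow_le_pow_right (by norm_num) (by omega)
    exact ⟨_, p1e _ IsHC (IsPk k) s (2 ^ (2 * s - j)) _ (hH s hs1)
      (fun F hF => p2b _ k _ F hk hc2 hcard hF)⟩
  · have hms : m ∣ s := by
      have h1 : m ∣ 2 * s * 2 ^ (2 * s - 1) := (Dvd.intro_left _ hkm.symm).trans hdvd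
      have h2 : 2 * s * 2 ^ (2 * s - 1) = s * 2 ^ (2 * s) := by
        obtain ⟨u, hu⟩ : ∃ u, 2 * s = u + 1 := ⟨2 * s - 1, by omega⟩
        rw [hu, Nat.add_sub_cancel, pow_succ, ← hu]; ring
      rw [h2] at h1
      have h3 : Nat.Coprime m (2 ^ (2 * s)) := Nat.Coprime.pow_right _ (Nat.coprime_two_right.2 hmo)
      exact h3.dvd_of_dvd_mul_right h1
    obtain ⟨t, rfl⟩ := hms
    have ht : 1 ≤ t := by
      rcases Nat.eq_zero_or_pos t with h | h
      · subst h; simp at hs1
      · exact h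
    obtain ⟨a, ha⟩ : ∃ a, a = Nat.log 2 m + 1 := ⟨_, rfl⟩
    have ha1 : m < 2 ^ a := by
      rw [ha]; exact Nat.lt_pow_succ_log_self (by norm_num) m
    have ha2 : 2 ^ a < 2 * m := by
      have h1 : 2 ^ Nat.log 2 m ≤ m := Nat.pow_log_le_self 2 (by omega)
      have h2 : 2 ^ Nat.log 2 m ≠ m := by
        intro h3
        have h4 : 1 ≤ Nat.log 2 m := Nat.log_pos (by norm_num) (by omega)
        have h5 : Even m := by
          rw [← h3]
          exact (Nat.even_pow.2 ⟨even_two, by omega⟩)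
        exact (Nat.not_even_iff_odd.2 hmo) h5
      rw [ha, pow_succ]; omega
    have hja : j + a ≤ 2 * m * t := by
      have h1 : 2 ^ (j + a) < 2 ^ (2 * m * t + 1) := by
        have h2 : 2 ^ j * m ≤ 2 ^ (2 * (m * t)) - 1 := by rw [← hkm]; exact hkn
        have hpos : 0 < 2 ^ (2 * (m * t)) := by positivity
        calc 2 ^ (j + a) = 2 ^ j * 2 ^ a := by rw [pow_add]
          _ < 2 ^ j * (2 * m) := Nat.mul_lt_mul_of_pos_left ha2 (by positivity)
          _ = 2 * (2 ^ j * m) := by ring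
          _ ≤ 2 * (2 ^ (2 * (m * t)) - 1) := Nat.mul_le_mul_left _ h2
          _ < 2 * 2 ^ (2 * (m * t)) := by omega
          _ = 2 ^ (2 * m * t + 1) := by rw [pow_succ, mul_assoc 2 m t]; ring
      have := (Nat.pow_lt_pow_iff_right (by norm_num : 1 < 2)).1 h1
      omega
    obtain ⟨c, hc⟩ : ∃ c, c = 2 ^ (2 * m * t - a - j) := ⟨_, rfl⟩
    have hK : m * 2 ^ (2 * m * t - a) = k * c := by
      rw [hkm, hc]
      have : 2 * m * t - a = (2 * m * t - a - j) + j := by omega
      rw [this, pow_add, Nat.add_sub_cancel]; ring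
    have hcardW : Fintype.card (Fin (2 * t) → Bool) = 4 ^ t := by
      rw [Fintype.card_fun, Fintype.card_bool, Fintype.card_fin, pow_mul]; norm_num
    -- one Hamiltonian cycle
    have h1 : ∀ E' : Set (Sym2 (Fin (2 * t) → Bool)), IsHC E' →
        DecN (IsPk k) (2 ^ a * c) (powE (Fin m) E') := by
      intro E' hE'
      obtain ⟨_, φ, hφ, hE2⟩ := p2c _ E' hE'
      have key : ∀ L : ℕ, L = 4 ^ t → ∀ φ : ZMod L → (Fin (2 * t) → Bool), Function.Bijective φ →
          E' = Sym2.map φ '' cyE L → DecN (IsPk k) (2 ^ a * c) (powE (Fin m) E') := by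
        intro L hL φ hφ hE2
        rw [hE2, p3e m L _ φ hφ]
        have h2 := hT m a t hmo hm ha1 ha2 ht
        rw [← hL, hK] at h2
        apply p1e _ (IsPk (k * c)) (IsPk k) (2 ^ a) c
        · refine p1a _ _ (IsPk (k * c)) (IsPk (k * c)) _ (2 ^ a) _ ?_ h2
            (fun F hF => p1b _ _ _ _ F ?_ hF)
          · intro y y' h3
            funext i
            exact hφ.1 (congrFun h3 i)
          · intro y y' h3
            funext i
            exact hφ.1 (congrFun h3 i)
        · intro F hF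
          exact p2a _ k c F hk hF
      exact key _ hcardW φ hφ hE2
    have h2 : DecN (IsPk k) (t * (2 ^ a * c)) (powE (Fin m) (cubeE (Fin (2 * t)))) :=
      p3d (Fin m) _ IsHC (IsPk k) t _ _ hc_loopless (hH t ht) h1
    have inj1 : Function.Injective (fun z : Fin m → (Fin (2 * t) → Bool) =>
        fun p : Fin m × Fin (2 * t) => z p.1 p.2) := by
      intro z z' h
      funext x y
      exact congrFun h (x, y)
    have h3 : DecN (IsPk k) (t * (2 ^ a * c)) (cubeE (Fin m × Fin (2 * t))) := by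
      rw [p4c]
      exact p1a _ _ (IsPk k) (IsPk k) _ _ _ inj1 h2 (fun F hF => p1b _ _ _ _ F inj1 hF)
    let e : Fin m × Fin (2 * t) ≃ Fin (m * (2 * t)) := finProdFinEquiv
    have inj2 : Function.Injective (fun x : Fin m × Fin (2 * t) → Bool =>
        fun j => x (e.symm j)) := by
      intro z z' h
      funext p
      have := congrFun h (e p)
      simpa using this
    have h4 : DecN (IsPk k) (t * (2 ^ a * c)) (cubeE (Fin (m * (2 * t)))) := by
      rw [p4a _ _ e]
      exact p1a _ _ (IsPk k) (IsPk k) _ _ _ inj2 h3 (fun F hF => p1b _ _ _ _ F inj2 hF)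
    have hnn : 2 * (m * t) = m * (2 * t) := by ring
    rw [hnn]
    exact ⟨_, h4⟩

end Pool.Agent.K3h19.Erde
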