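import Pool.Agent.K3h88.Erde.Stm

/-! Brick G: the reflected Gray code data. -/

set_option autoImplicit false

namespace Pool.Agent.K3h19.Erde

open Pool.Agent.K3h88.Erde

/-- the reflected Gray code -/
def gb (a : ℕ) (j : ℕ) : Fin a → ZMod 2 := fun i => ((j / 2 ^ (i : ℕ) + j / 2 ^ ((i : ℕ) + 1) : ℕ) : ZMod 2)

theorem gb_zero (a : ℕ) : gb a 0 = 0 := by
  funext i; simp [gb]

theorem gb_inj {a i j : ℕ} (hi : i < 2 ^ a) (hj : j < 2 ^ a) (h : gb a i = gb a j) : i = j := by
  have key : ∀ t, t ≤ a → i / 2 ^ (a - t) = j / 2 ^ (a - t) := by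
    intro t
    induction t with
    | zero =>
      intro _
      rw [Nat.sub_zero, Nat.div_eq_of_lt hi, Nat.div_eq_of_lt hj]
    | succ t ih =>
      intro ht
      have h1 := ih (by omega)
      obtain ⟨k, hk⟩ : ∃ k, k = a - (t + 1) := ⟨_, rfl⟩
      have hk1 : a - t = k + 1 := by omega
      rw [hk1] at h1
      rw [← hk]
      have hka : k < a := by omega
      have h2 := congrFun h ⟨k, hka⟩
      simp only [gb] at h2
      rw [ZMod.natCast_eq_natCast_iff] at h2
      rw [h1] at h2
      have h3 : i / 2 ^ k % 2 = j / 2 ^ k % 2 := by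
        have := Nat.ModEq.add_right_cancel' _ h2
        exact this
      have h4 : i / 2 ^ k / 2 = j / 2 ^ k / 2 := by
        rw [Nat.div_div_eq_div_mul, Nat.div_div_eq_div_mul, ← pow_succ]; exact h1
      omega
  have := key a le_rfl
  simpa using this

theorem gb_refl {a x : ℕ} (ha : 0 < a) (hx : x < 2 ^ a) :
    gb a x + Pi.single (⟨a - 1, by omega⟩ : Fin a) 1 = gb a (2 ^ a - 1 - x) := by
  have hdiv : ∀ i, i ≤ a → (2 ^ a - 1 - x) / 2 ^ i + x / 2 ^ i + 1 = 2 ^ (a - i) := by
    intro i hi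
    have hp : 0 < 2 ^ i := by positivity
    have e : 2 ^ a = 2 ^ i * 2 ^ (a - i) := by rw [← pow_add]; congr 1; omega
    have h1 := Nat.div_add_mod x (2 ^ i)
    have h2 := Nat.mod_lt x hp
    have hq : x / 2 ^ i < 2 ^ (a - i) := by
      rw [Nat.div_lt_iff_lt_mul hp, mul_comm, ← e]; exact hx
    have h3 : (2 ^ a - 1 - x) = 2 ^ i * (2 ^ (a - i) - 1 - x / 2 ^ i) + (2 ^ i - 1 - x % 2 ^ i) := by
      obtain ⟨c, hc⟩ : ∃ c, 2 ^ (a - i) = c + 1 + x / 2 ^ i := ⟨2 ^ (a - i) - 1 - x / 2 ^ i, by omega⟩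
      have e2 : 2 ^ (a - i) - 1 - x / 2 ^ i = c := by omega
      rw [e2]
      have e3 : 2 ^ a = 2 ^ i * c + 2 ^ i + 2 ^ i * (x / 2 ^ i) := by rw [e, hc]; ring
      omega
    have h4 : (2 ^ a - 1 - x) / 2 ^ i = 2 ^ (a - i) - 1 - x / 2 ^ i := by
      have h5 : (2 ^ i - 1 - x % 2 ^ i) / 2 ^ i = 0 := Nat.div_eq_of_lt (by omega)
      rw [h3, Nat.mul_add_div hp, h5, add_zero]
    rw [h4]; omega
  funext i
  have hi := i.2
  have d1 := hdiv i (by omega)
  have d2 := hdiv (i + 1) (by omega)
  simp only [gb, Pi.add_apply]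
  have two : ∀ n : ℕ, ((2 * n : ℕ) : ZMod 2) = 0 := by
    intro n; push_cast; rw [show (2 : ZMod 2) = 0 from rfl, zero_mul]
  rcases Nat.lt_or_ge (i + 1 : ℕ) a with h | h
  · have hne : i ≠ (⟨a - 1, by omega⟩ : Fin a) := by
      intro he; have := congrArg Fin.val he; simp at this; omega
    rw [Pi.single_eq_of_ne hne, add_zero, ZMod.natCast_eq_natCast_iff]
    obtain ⟨c, hc⟩ : ∃ c, a - (i : ℕ) = c + 2 := ⟨a - i - 2, by omega⟩
    have hc' : a - ((i : ℕ) + 1) = c + 1 := by omega
    rw [hc] at d1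
    rw [hc'] at d2
    have q1 : 2 ^ (c + 2) = 2 * (2 * 2 ^ c) := by ring
    have q2 : 2 ^ (c + 1) = 2 * 2 ^ c := by ring
    rw [q1] at d1
    rw [q2] at d2
    rw [Nat.ModEq]
    omega
  · have he : i = (⟨a - 1, by omega⟩ : Fin a) := by
      apply Fin.ext; simp; omega
    have ei : (i : ℕ) = a - 1 := by rw [he]
    rw [← he, Pi.single_eq_same]
    have e1 : a - (i : ℕ) = 1 := by omega
    have e2 : a - ((i : ℕ) + 1) = 0 := by omega
    rw [e1] at d1
    rw [e2] at d2
    rw [← Nat.cast_one (R := ZMod 2), ← Nat.cast_add, ZMod.natCast_eq_natCast_iff, Nat.ModEq]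
    omega

/-- the changed coordinate -/
noncomputable def gk (a : ℕ) (ha : 0 < a) (j : ℕ) : Fin a :=
  ⟨min (padicValNat 2 (j + 1)) (a - 1), by omega⟩

theorem gb_step {a : ℕ} (ha : 0 < a) {j : ℕ} (hj : j + 1 < 2 ^ a) :
    gb a (j + 1) = gb a j + Pi.single (gk a ha j) 1 := by
  have hv : padicValNat 2 (j + 1) < a := by
    by_contra hcon
    have h1 : 2 ^ a ∣ j + 1 := by
      rw [padicValNat_dvd_iff_le (by omega)]; omega
    have := Nat.le_of_dvd (by omega) h1
    omega
  have hmin : min (padicValNat 2 (j + 1)) (a - 1) = padicValNat 2 (j + 1) := by omega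
  funext i
  simp only [gb, Pi.add_apply]
  have hd : ∀ k, (2 ^ k ∣ j + 1) ↔ k ≤ padicValNat 2 (j + 1) := fun k => by
    rw [padicValNat_dvd_iff_le (by omega)]
  rw [Nat.succ_div, Nat.succ_div]
  rcases lt_trichotomy (i : ℕ) (padicValNat 2 (j + 1)) with h | h | h
  · have hne : i ≠ gk a ha j := by
      intro he; have := congrArg Fin.val he; simp only [gk] at this; omega
    rw [Pi.single_eq_of_ne hne, add_zero, if_pos ((hd _).2 (by omega)), if_pos ((hd _).2 (by omega)),
      ZMod.natCast_eq_natCast_iff, Nat.ModEq]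
    omega
  · have he : i = gk a ha j := by
      apply Fin.ext; simp only [gk]; omega
    rw [← he, Pi.single_eq_same, if_pos ((hd _).2 (by omega)), if_neg (fun hh => by
      have := (hd _).1 hh; omega), ← Nat.cast_one (R := ZMod 2), ← Nat.cast_add,
      ZMod.natCast_eq_natCast_iff, Nat.ModEq]
    omega
  · have hne : i ≠ gk a ha j := by
      intro he; have := congrArg Fin.val he; simp only [gk] at this; omega
    rw [Pi.single_eq_of_ne hne, add_zero, if_neg (fun hh => by
      have := (hd _).1 hh; omega), if_neg (fun hh => by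
      have := (hd _).1 hh; omega)]
    rfl

open Classical in
/-- the next time of the same colour -/
noncomputable def gn (m a : ℕ) (ha : 0 < a) (j : ℕ) : ℕ :=
  if h : j + 1 < m then
    Nat.find (p := fun i => j < i ∧ (i = m - 1 ∨ gk a ha i = gk a ha j)) ⟨m - 1, by omega, Or.inl rfl⟩
  else j + 1

theorem gray : StmG := by
  intro m a hodd hm h1 h2
  have ha : 0 < a := by
    rcases Nat.eq_zero_or_pos a with h | h
    · subst h; simp at h1; omega
    · exact h
  have hpa : 2 ^ a = 2 * 2 ^ (a - 1) := by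
    rw [← pow_succ']; congr 1; omega
  have spec : ∀ j, (h : j + 1 < m) → j < gn m a ha j ∧ (gn m a ha j = m - 1 ∨ gk a ha (gn m a ha j) = gk a ha j) := by
    intro j h
    have hspec := Nat.find_spec (p := fun i => j < i ∧ (i = m - 1 ∨ gk a ha i = gk a ha j))
      ⟨m - 1, by omega, Or.inl rfl⟩
    unfold gn
    rw [dif_pos h]
    convert hspec
  have smin : ∀ j, (h : j + 1 < m) → ∀ i, i < gn m a ha j → ¬ (j < i ∧ (i = m - 1 ∨ gk a ha i = gk a ha j)) := by
    intro j h i hi
    unfold gn at hi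
    rw [dif_pos h] at hi
    exact Nat.find_min _ hi
  have hle : ∀ j, (h : j + 1 < m) → gn m a ha j ≤ m - 1 := by
    intro j h
    by_contra hcon
    exact smin j h (m - 1) (by omega) ⟨by omega, Or.inl rfl⟩
  have htau : gb a (2 ^ a - 1) = Pi.single (⟨a - 1, by omega⟩ : Fin a) 1 := by
    have := gb_refl (a := a) (x := 0) ha (by positivity)
    rw [gb_zero, zero_add, Nat.sub_zero] at this
    exact this.symm
  refine ⟨{
    b := gb a
    κ := gk a ha
    nx := gn m a ha
    hm := hm
    b0 := gb_zero a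
    bstep := fun j hj => gb_step ha (by omega)
    binj := fun i j hi hj h => gb_inj (by omega) (by omega) h
    ksurj := ?_
    nxlt := ?_
    nxle := ?_
    nxk := ?_
    nxmin := ?_
    τ := Pi.single (⟨a - 1, by omega⟩ : Fin a) 1
    r := 2 ^ a - m
    top := ⟨a - 1, by omega⟩
    hr1 := by omega
    hr2 := by omega
    hτtop := by rw [Pi.single_eq_same]
    hτ0 := ?_
    hτr := ?_
    hτr' := ?_ }⟩
  · intro x
    have hx := x.2
    have h3 : 2 ^ (x : ℕ) ≤ 2 ^ (a - 1) := Nat.pow_le_pow_right (by norm_num) (by omega)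
    have h4 : 0 < 2 ^ (x : ℕ) := by positivity
    refine ⟨2 ^ (x : ℕ) - 1, by omega, ?_⟩
    apply Fin.ext
    simp only [gk]
    rw [Nat.sub_add_cancel h4, padicValNat.prime_pow]
    omega
  · intro j
    by_cases h : j + 1 < m
    · exact (spec j h).1
    · unfold gn; rw [dif_neg h]; omega
  · intro j h
    have := hle j h
    omega
  · intro j h
    have h5 : j < gn m a ha j := by
      by_cases h : j + 1 < m
      · exact (spec j h).1
      · unfold gn; rw [dif_neg h]; omega
    rcases (spec j (by omega)).2 with h6 | h6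
    · omega
    · exact h6
  · intro i j hji hi heq
    by_cases h : j + 1 < m
    · exact smin j h i hi ⟨hji, Or.inr heq⟩
    · unfold gn at hi; rw [dif_neg h] at hi; omega
  · intro j hj h
    rw [← htau] at h
    have := gb_inj (by omega) (by omega) h
    omega
  · rw [gb_refl ha (by omega)]
    congr 1
    omega
  · intro j hj h
    rw [gb_refl ha (by omega)] at h
    have := gb_inj (by omega) (by omega) h
    omega

end Pool.Agent.K3h19.Erde
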